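import Mathlib

set_option autoImplicit false

namespace Pool.Agent.Results.MP_2aafb6_co.Shift

open Finset
open scoped Classical

def Admissible (b c n : ℕ) (a : ℕ → ℤ) : Prop :=
  a 0 = 0 ∧ (∀ i < n, a i < a (i + 1)) ∧ ∀ i, i + b ≤ n → a (i + b) ≤ a i + c

def Hits (k n : ℕ) (a : ℕ → ℤ) : Prop := ∃ i j, i < j ∧ j ≤ n ∧ a j - a i = k

noncomputable def N (b c k : ℕ) : ℕ∞ :=
  ⨅ n : {n : ℕ // 0 < n ∧ ∀ a, Admissible b c n a → Hits k n a}, (n.1 : ℕ∞)

noncomputable def cnt (w : ℤ → Prop) (u v : ℤ) : ℤ := ((Ico u v).filter w).card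

theorem cnt_add (w : ℤ → Prop) {u p v : ℤ} (h1 : u ≤ p) (h2 : p ≤ v) :
    cnt w u v = cnt w u p + cnt w p v := by
  rw [cnt, ← Ico_union_Ico_eq_Ico h1 h2, filter_union,
    card_union_of_disjoint (disjoint_filter_filter (Ico_disjoint_Ico_consecutive u p v))]
  simp [cnt]

theorem cnt_map {w w' : ℤ → Prop} {u v u' v' : ℤ} (s : ℤ)
    (h : ∀ x, u ≤ x → x < v → w x → u' ≤ x + s ∧ x + s < v' ∧ w' (x + s)) : cnt w u v ≤ cnt w' u' v' := by
  unfold cnt
  exact_mod_cast card_le_card_of_injOn (· + s) (fun x hx => by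
    simp only [coe_filter, mem_Ico, Set.mem_ofPred_eq] at hx ⊢
    have := h x hx.1.1 hx.1.2 hx.2; tauto) (fun _ _ _ _ h => by simpa using h)

theorem cnt_or (w w' : ℤ → Prop) (u v : ℤ) (h : ∀ x, u ≤ x → x < v → w x → ¬ w' x) :
    cnt (fun x => w x ∨ w' x) u v = cnt w u v + cnt w' u v := by
  unfold cnt
  rw [← Nat.cast_add, ← card_union_of_disjoint (disjoint_filter.2 fun x hx =>
    h x (mem_Ico.1 hx).1 (mem_Ico.1 hx).2), ← filter_or]
  congr

theorem cnt_true {w : ℤ → Prop} {u v : ℤ} (h0 : u ≤ v) (h : ∀ x, u ≤ x → x < v → w x) :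
    cnt w u v = v - u := by
  rw [cnt, filter_true_of_mem (fun x hx => h x (mem_Ico.1 hx).1 (mem_Ico.1 hx).2)]
  simp [h0]

theorem cnt_le (w : ℤ → Prop) {u v : ℤ} (h0 : u ≤ v) : cnt w u v ≤ v - u :=
  (cnt_map (w' := fun _ => True) 0 (by simp +contextual)).trans (cnt_true h0 (fun _ _ _ => trivial)).le

theorem cnt_two {w : ℤ → Prop} {k : ℤ} (h : ∀ x, w x → ¬ w (x + k)) {u v : ℤ} (h0 : u ≤ v) :
    cnt w u v + cnt w (u + k) (v + k) ≤ v - u := by
  have := cnt_or w (fun x => w (x + k)) u v (fun x _ _ => h x)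
  have h2 : cnt w (u + k) (v + k) ≤ cnt (fun x => w (x + k)) u v :=
    cnt_map (-k) (fun x _ _ _ => ⟨by omega, by omega, by simpa⟩)
  linarith [cnt_le (fun x => w x ∨ w (x + k)) h0]

/-- a word of length `l` with at least `m` ones -/
def G (k c d m : ℤ) : Prop := ∃ (w : ℤ → Prop) (l : ℤ), 0 ≤ l ∧ (∀ x, w x → ¬ w (x + k)) ∧
  m ≤ cnt w 0 l ∧ ∀ u v, 0 ≤ u → u ≤ v → v ≤ l → v - u ≤ c → v - u ≤ d + cnt w u v

theorem mono (w : ℤ → Prop) {u v u' v' : ℤ} (h1 : u' ≤ u) (h2 : u ≤ v) (h3 : v ≤ v') :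
    v - u - cnt w u v ≤ v' - u' - cnt w u' v' := by
  rw [cnt_add w h1 (h2.trans h3), cnt_add w h2 h3]
  linarith [cnt_le w h1, cnt_le w h3]

theorem ins (w : ℤ → Prop) {k : ℤ} (hk : 0 < k) (h : ∀ x, w x → ¬ w (x + k)) (p : ℤ) :
    ∃ W : ℤ → Prop, (∀ x, W x → ¬ W (x + k)) ∧
      ∀ u v, u ≤ p → p ≤ v → cnt w u v + k ≤ cnt W u (v + 2 * k) := by
  refine ⟨fun x => if x < p then w x else if x < p + k then ¬ w (x - k) else w (x - 2 * k),
    fun x => ?_, fun u v h1 h2 => ?_⟩
  · have := h x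
    have := h (x - 2 * k)
    have e1 : x - 2 * k + k = x - k := by ring
    have e2 : x + k - 2 * k = x - k := by ring
    simp only [add_sub_cancel_right, e1, e2] at *
    split_ifs <;> first | omega | tauto
  · rw [cnt_add _ h1 (by omega : p ≤ v + 2 * k), cnt_add _ (by omega : p ≤ p + k) (by omega),
      cnt_add w h1 h2]
    have a1 := cnt_or w (fun x => ¬ w x) (p - k) p (by tauto)
    rw [cnt_true (by omega) (by tauto)] at a1
    have a2 := cnt_add w (by omega : p - k ≤ p) h2
    refine le_trans (by linarith) (add_le_add (cnt_map (w := w) (u := u) (v := p) 0 ?_) (add_le_add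
      (cnt_map (w := fun x => ¬ w x) (u := p - k) (v := p) k ?_)
      (cnt_map (w := w) (u := p - k) (v := v) (2 * k) ?_))) <;> intro x _ _ _ <;>
      refine ⟨by omega, by omega, ?_⟩ <;> simp only [add_sub_cancel_right, add_zero] <;>
      split_ifs <;> first | omega | assumption

theorem del (W : ℤ → Prop) {k : ℤ} (hk : 0 < k) (h : ∀ x, W x → ¬ W (x + k)) (p : ℤ) :
    ∃ w : ℤ → Prop, (∀ x, w x → ¬ w (x + k)) ∧
      ∀ u v, u ≤ p → p ≤ v → cnt W u (v + 2 * k) ≤ cnt w u v + k := by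
  refine ⟨fun x => if x < p then W x else W (x + 2 * k) ∧ ¬ (x < p + k ∧ W (x - k)),
    fun x => ?_, fun u v h1 h2 => ?_⟩
  · have := h x
    have := h (x + 2 * k)
    have e1 : x + 2 * k + k = x + k + 2 * k := by ring
    simp only [add_sub_cancel_right, e1, add_lt_add_iff_right] at *
    split_ifs <;> first | omega | tauto
  · rw [cnt_add _ h1 (by omega : p ≤ v + 2 * k), cnt_add _ (by omega : p ≤ p + k) (by omega),
      cnt_add _ (by omega : p + k ≤ p + 2 * k) (by omega), cnt_add _ h1 h2]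
    set w := fun x => if x < p then W x else W (x + 2 * k) ∧ ¬ (x < p + k ∧ W (x - k)) with hw
    let C := fun x => x < p + k ∧ W (x + 2 * k) ∧ W (x - k)
    have a0 : cnt W u p ≤ cnt w u p := cnt_map 0 (fun x _ h _ => by simp [hw, *])
    have a1 := cnt_or w C p v (fun x h1 _ => by simp only [hw, C, if_neg h1.not_gt]; tauto)
    have a2 : cnt W (p + 2 * k) (v + 2 * k) ≤ cnt (fun x => w x ∨ C x) p v :=
      cnt_map (-(2 * k)) (fun x _ _ _ => ⟨by omega, by omega, by
        simp only [hw, C, if_neg (show ¬ x + -(2 * k) < p by omega), neg_add_cancel_right]; tauto⟩)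
    have a3 : cnt C p v ≤ cnt C p (p + k) := cnt_map 0 (fun x _ _ h => by simp [*, h.1])
    have a4 := cnt_or W (fun x => W (x + k)) p (p + k) (fun x _ _ => h x)
    have a5 := cnt_or (fun x => W x ∨ W (x + k)) C p (p + k) (fun x _ _ h1 h2 => by
      rcases h1 with h1 | h1
      · exact h (x - k) h2.2.2 (by simpa using h1)
      · exact h _ h1 (by convert h2.2.1 using 1; ring))
    have a6 : cnt W (p + k) (p + 2 * k) ≤ cnt (fun x => W (x + k)) p (p + k) :=
      cnt_map (-k) (fun x _ _ _ => ⟨by omega, by omega, by simpa⟩)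
    linarith [cnt_le (fun x => (W x ∨ W (x + k)) ∨ C x) (by omega : p ≤ p + k)]

theorem up {k c d m : ℤ} (hk : 0 < k) (hd : 0 ≤ d) (hc : 2 * d < c) (h : G k c d m) :
    G k (c + 2 * k) (d + k) (m + k) := by
  obtain ⟨w, l, l0, h1, h2, h3⟩ := h
  by_cases hl : l ≤ 2 * c
  · obtain ⟨W, a1, a2⟩ := ins w hk h1 (min c l)
    refine ⟨W, l + 2 * k, by omega, a1, by linarith [a2 0 l (by omega) (by omega)], fun u v _ _ _ _ => ?_⟩
    have := mono W (min_le_left u (min c l)) ‹u ≤ v› (show v ≤ max (v - 2 * k) (min c l) + 2 * k by omega)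
    have := a2 _ _ (min_le_right u (min c l)) (le_max_right (v - 2 * k) _)
    have := h3 (min u (min c l)) (max (v - 2 * k) (min c l)) (by omega) (by omega) (by omega) (by omega)
    omega
  · have hl2 : l < c + k := by
      by_contra hn
      have := h3 0 c le_rfl (by omega) (by omega) (by omega)
      have := h3 (0 + k) (c + k) (by omega) (by omega) (by omega) (by omega)
      have := cnt_two h1 (show 0 ≤ c by omega)
      omega
    have a0 : cnt w 0 l ≤ cnt w 0 (k + k) := cnt_map 0 (fun x _ _ _ => ⟨by omega, by omega, by simpa⟩)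
    have a3 := cnt_two h1 hk.le
    rw [zero_add, ← cnt_add w hk.le (show k ≤ k + k by omega)] at a3
    obtain ⟨W, a1, a2⟩ := ins (fun x => 0 ≤ x ∧ x < k) hk (fun x => by omega) k
    have := a2 0 k hk.le le_rfl
    rw [cnt_true hk.le (by tauto)] at this
    refine ⟨W, k + 2 * k, by omega, a1, by omega, fun u v h4 h5 h6 _ => ?_⟩
    have := mono W h4 h5 h6
    omega

theorem down {k c d m : ℤ} (hk : 0 < k) (hd : 0 ≤ d) (hc : 2 * d < c)
    (h : G k (c + 2 * k) (d + k) (m + k)) : G k c d m := by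
  obtain ⟨W, l, l0, h1, h2, h3⟩ := h
  by_cases hl : 2 * k ≤ l ∧ l - 2 * k ≤ 2 * c
  · obtain ⟨l, rfl⟩ : ∃ t, l = t + 2 * k := ⟨l - 2 * k, by ring⟩
    obtain ⟨w, a1, a2⟩ := del W hk h1 (min c l)
    refine ⟨w, l, by omega, a1, by linarith [a2 0 l (by omega) (by omega)], fun u v _ _ _ _ => ?_⟩
    have := mono w (min_le_left u (min c l)) ‹u ≤ v› (le_max_left v (min c l))
    have := a2 _ _ (min_le_right u (min c l)) (le_max_right v _)
    have := h3 (min u (min c l)) (max v (min c l) + 2 * k) (by omega) (by omega) (by omega) (by omega)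
    omega
  · have hl2 : l < c + 2 * k + k := by
      by_contra hn
      have := h3 0 (c + 2 * k) le_rfl (by omega) (by omega) (by omega)
      have := h3 (0 + k) (c + 2 * k + k) (by omega) (by omega) (by omega) (by omega)
      have := cnt_two h1 (show 0 ≤ c + 2 * k by omega)
      omega
    have a0 : cnt W 0 l ≤ cnt W 0 (k + k + k + k) :=
      cnt_map 0 (fun x _ _ _ => ⟨by omega, by omega, by simpa⟩)
    have a3 := cnt_two h1 hk.le
    have a4 := cnt_two h1 (show k + k ≤ k + k + k by omega)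
    rw [zero_add, ← cnt_add W hk.le (show k ≤ k + k by omega)] at a3
    rw [← cnt_add W (show k + k ≤ k + k + k by omega) (show k + k + k ≤ k + k + k + k by omega)] at a4
    rw [cnt_add W (p := k + k) (v := k + k + k + k) (by omega) (by omega)] at a0
    refine ⟨fun x => 0 ≤ x ∧ x < k, k, hk.le, fun x => by omega, ?_, fun u v _ h _ _ => ?_⟩
    · rw [cnt_true hk.le (by tauto)]; omega
    · rw [cnt_true h (fun _ _ _ => by omega)]; omega

def Av (b c k n : ℕ) : Prop := ∃ a, Admissible b c n a ∧ ¬ Hits k n a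

theorem small {b c k n : ℕ} (h : n < b) : Av b c k n := by
  refine ⟨fun i => i * (k + 1), ⟨by simp, fun i _ => by push_cast; nlinarith, fun i _ => by omega⟩, ?_⟩
  rintro ⟨i, j, h1, -, h2⟩
  have : (i : ℤ) + 1 ≤ j := by exact_mod_cast h1
  simp only at h2
  nlinarith

theorem toG {b c k n : ℕ} (hk : 0 < k) (hb : b ≤ n) (h : Av b c k n) : G k c (c - b) (n + 1) := by
  obtain ⟨a, ⟨a0, a1, a2⟩, a3⟩ := h
  have sm : ∀ i j, i < j → j ≤ n → a i < a j := by
    intro i j hij hj
    induction j, hij using Nat.le_induction with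
    | base => exact a1 i hj
    | succ j _ ih => exact (ih (by omega)).trans (a1 j hj)
  have le : ∀ i j, i ≤ j → j ≤ n → a i ≤ a j := fun i j h hj =>
    h.eq_or_lt.elim (fun e => e ▸ le_rfl) (fun h => (sm i j h hj).le)
  have many : ∀ s r u v, s + r ≤ n → u ≤ a s → a (s + r) < v →
      (r : ℤ) + 1 ≤ cnt (fun x => ∃ i ≤ n, a i = x) u v := by
    intro s r u v h1 h2 h3
    have := card_le_card_of_injOn (s := Icc s (s + r)) (t := (Ico u v).filter (fun x => ∃ i ≤ n, a i = x))
      a (fun i hi => by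
        simp only [coe_Icc, Set.mem_Icc, coe_filter, mem_Ico, Set.mem_ofPred_eq] at hi ⊢
        exact ⟨⟨h2.trans (le _ _ hi.1 (by omega)), (le _ _ hi.2 h1).trans_lt h3⟩, i, by omega, rfl⟩)
      (fun i hi j hj e => by
        simp only [coe_Icc, Set.mem_Icc] at hi hj
        rcases lt_trichotomy i j with h | h | h
        · exact absurd e (sm i j h (by omega)).ne
        · exact h
        · exact absurd e (sm j i h (by omega)).ne')
    rw [Nat.card_Icc, show s + r + 1 - s = r + 1 by omega] at this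
    unfold cnt
    convert (Int.ofNat_le.2 this)
    simp
  have an := le 0 n (by omega) le_rfl
  refine ⟨fun x => ∃ i ≤ n, a i = x, a n + 1, by omega, ?_, many 0 n _ _ (by omega) a0.ge (by simp),
    fun u v h1 h2 h3 h4 => ?_⟩
  · rintro _ ⟨i, hi, rfl⟩ ⟨j, hj, e⟩
    refine a3 ⟨i, j, ?_, hj, by omega⟩
    by_contra hn
    have := le j i (by omega) hi
    omega
  · set i := Nat.findGreatest (fun i => a i ≤ u) (n - b)
    have i1 : i ≤ n - b := Nat.findGreatest_le _
    have i2 : a i ≤ u := Nat.findGreatest_spec (P := fun i => a i ≤ u) (Nat.zero_le _) (by omega)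
    by_cases h5 : v ≤ a (i + b) + 1
    · have := mono (fun x => ∃ i ≤ n, a i = x) i2 h2 h5
      have := many i b (a i) (a (i + b) + 1) (by omega) le_rfl (by omega)
      have := a2 i (by omega)
      omega
    · have i3 : i + b ≠ n := fun e => h5 (e ▸ h3)
      have i4 : ¬ a (i + 1) ≤ u := Nat.findGreatest_is_greatest (P := fun i => a i ≤ u)
        (Nat.lt_succ_self i) (by omega)
      rcases b with _ | b
      · have : 0 ≤ cnt (fun x => ∃ i ≤ n, a i = x) u v := Int.natCast_nonneg _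
        push_cast; omega
      · have := many (i + 1) b u v (by omega) (by omega) (by rw [add_assoc, add_comm 1]; omega)
        push_cast; omega

theorem ofG {b c k n : ℕ} (hb : 0 < b) (h : G k c (c - b) (n + 1)) : Av b c k n := by
  obtain ⟨w, l, l0, h1, h2, h3⟩ := h
  set S := (Ico 0 l).filter w with hS
  have hn : n < S.card := by unfold cnt at h2; exact_mod_cast h2
  let e := S.orderEmbOfFin rfl
  have he : ∀ i, (0 ≤ e i ∧ e i < l) ∧ w (e i) := fun i => by
    have : e i ∈ (Ico 0 l).filter w := S.orderEmbOfFin_mem rfl i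
    rwa [mem_filter, mem_Ico] at this
  refine ⟨fun i => if h : i < S.card then e ⟨i, h⟩ - e ⟨0, by omega⟩ else 0,
    ⟨by simp, fun i hi => ?_, fun i hi => ?_⟩, ?_⟩
  · simp only [dif_pos (show i < S.card by omega), dif_pos (show i + 1 < S.card by omega)]
    exact sub_lt_sub_right (e.strictMono (by simp [Fin.lt_def])) _
  · have i1 : i < S.card := by omega
    have i2 : i + b < S.card := by omega
    simp only [dif_pos i1, dif_pos i2]
    by_contra hn
    have a1 := he ⟨i, i1⟩
    have a2 := he ⟨i + b, i2⟩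
    have := h3 (e ⟨i, i1⟩ + 1) (e ⟨i, i1⟩ + 1 + c) (by omega) (by omega) (by omega) (by omega)
    have a3 : ((Ico (e ⟨i, i1⟩ + 1) (e ⟨i, i1⟩ + 1 + c)).filter w).card ≤
        ((Ioo (⟨i, i1⟩ : Fin S.card) ⟨i + b, i2⟩).image e).card := by
      refine card_le_card (fun x hx => ?_)
      simp only [mem_filter, mem_Ico] at hx
      have : x ∈ Set.range e := by
        rw [range_orderEmbOfFin]; simp only [hS, coe_filter, mem_Ico, Set.mem_ofPred_eq]
        exact ⟨⟨by omega, by omega⟩, hx.2⟩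
      obtain ⟨j, rfl⟩ := this
      exact mem_image_of_mem _ (mem_Ioo.2 ⟨e.lt_iff_lt.1 (by omega), e.lt_iff_lt.1 (by omega)⟩)
    have a4 := a3.trans card_image_le
    rw [Fin.card_Ioo] at a4
    unfold cnt at this
    simp only at a4
    omega
  · rintro ⟨i, j, h4, h5, h6⟩
    simp only [dif_pos (show i < S.card by omega), dif_pos (show j < S.card by omega)] at h6
    exact h1 _ (he ⟨i, by omega⟩).2 (by convert (he ⟨j, by omega⟩).2 using 1; omega)

theorem result (b c k : ℕ) (hb : 0 < b) (hk : 0 < k) (h1 : b ≤ c) (h2 : c < 2 * b) :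
    N (b + k) (c + 2 * k) k = N b c k + k := by
  have key : ∀ n, Av (b + k) (c + 2 * k) k (n + k) ↔ Av b c k n := by
    intro n
    rcases lt_or_ge n b with h | h
    · exact iff_of_true (small (by omega)) (small h)
    · refine ⟨fun a => ofG hb (down (k := k) (by omega) (by omega) (by omega) ?_),
        fun a => ofG (by omega) ?_⟩
      · convert toG hk (by omega) a using 1 <;> push_cast <;> ring
      · convert up (by omega) (by omega) (by omega) (toG hk h a) using 1 <;> push_cast <;> ring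
  have av : ∀ b c n, (∀ a, Admissible b c n a → Hits k n a) ↔ ¬ Av b c k n := by simp [Av]
  refine le_antisymm ?_ (le_iInf fun ⟨n, p1, p2⟩ => ?_)
  · rw [N, N, ENat.iInf_add]
    exact le_iInf fun ⟨n, p1, p2⟩ => iInf_le_of_le ⟨n + k, by omega, by rw [av, key, ← av]; exact p2⟩
      (by simp)
  · have : k < n := by
      by_contra hn
      exact (av _ _ _).1 p2 (small (by omega))
    obtain ⟨m, rfl⟩ : ∃ m, n = m + k := ⟨n - k, by omega⟩
    rw [av, key, ← av] at p2
    simp only [Nat.cast_add]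
    exact add_le_add (iInf_le_of_le ⟨m, by omega, p2⟩ le_rfl) le_rfl

end Pool.Agent.Results.MP_2aafb6_co.Shift
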